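import Pool.Agent.H69.MQ.Stm

set_option autoImplicit false

namespace Pool.Agent.H3.MQ
open Finset Pool.Agent.H69.MQ

theorem count {V : Type} [Fintype V] [DecidableEq V] (Bad : Finset (V × V × V)) (N : ℕ)
    (a b c : Fin N) (hab : a ≠ b) (hbc : b ≠ c) (hac : a ≠ c) :
    (univ.filter fun g : Fin N → V => (g a, g b, g c) ∈ Bad).card * Fintype.card V ^ 3
      ≤ Bad.card * Fintype.card V ^ N := by
  have h1 : (univ.filter fun g : Fin N → V => (g a, g b, g c) ∈ Bad).card * Fintype.card V ^ 3
      = ((univ.filter fun g : Fin N → V => (g a, g b, g c) ∈ Bad) ×ˢ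
          (univ : Finset (V × V × V))).card := by
    rw [card_product, card_univ, Fintype.card_prod, Fintype.card_prod]
    ring
  have h2 : Bad.card * Fintype.card V ^ N = (Bad ×ˢ (univ : Finset (Fin N → V))).card := by
    rw [card_product, card_univ, Fintype.card_fun, Fintype.card_fin]
  rw [h1, h2]
  refine Finset.card_le_card_of_injOn
    (fun p => ((p.1 a, p.1 b, p.1 c),
      fun l => if l = a then p.2.1 else if l = b then p.2.2.1 else if l = c then p.2.2.2 else p.1 l)) ?_ ?_
  · intro p hp
    simp only [coe_product, Set.mem_prod, mem_coe, mem_filter, mem_univ, true_and] at hp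
    simp only [coe_product, Set.mem_prod, mem_coe, mem_univ, and_true]
    exact hp.1
  · intro p _ q _ h
    simp only [Prod.mk.injEq] at h
    obtain ⟨⟨ha, hb, hc⟩, hf⟩ := h
    have h3 := congrFun hf a
    have h4 := congrFun hf b
    have h5 := congrFun hf c
    simp only [if_true, if_neg hab.symm, if_neg hbc.symm, if_neg hac.symm] at h3 h4 h5
    refine Prod.ext ?_ (Prod.ext h3 (Prod.ext h4 h5))
    funext l
    by_cases hla : l = a
    · rw [hla]; exact ha
    by_cases hlb : l = b
    · rw [hlb]; exact hb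
    by_cases hlc : l = c
    · rw [hlc]; exact hc
    have h6 := congrFun hf l
    simp only [if_neg hla, if_neg hlb, if_neg hlc] at h6
    exact h6

theorem t_AVG : S_AVG := by
  intro V _ _ _ Bad N hN
  classical
  set T : (Fin N → V) → Finset (Fin N × Fin N × Fin N) := fun g =>
    univ.filter fun t => (t.1 ≠ t.2.1 ∧ t.2.1 ≠ t.2.2 ∧ t.1 ≠ t.2.2) ∧
      (g t.1, g t.2.1, g t.2.2) ∈ Bad with hT
  have hex : ∃ g, 2 * (T g).card ≤ N := by
    by_contra hno
    push Not at hno
    have hV : 0 < Fintype.card V := Fintype.card_pos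
    have h1 : (N + 1) * Fintype.card V ^ N ≤ 2 * ∑ g : Fin N → V, (T g).card := by
      have h := Finset.sum_le_sum (s := (univ : Finset (Fin N → V))) (f := fun _ => N + 1)
        (g := fun g => 2 * (T g).card) (fun g _ => hno g)
      rw [sum_const, card_univ, Fintype.card_fun, Fintype.card_fin, smul_eq_mul, ← mul_sum] at h
      linarith
    have h2 : ∑ g : Fin N → V, (T g).card
        = ∑ t : Fin N × Fin N × Fin N, (univ.filter fun g : Fin N → V =>
            (t.1 ≠ t.2.1 ∧ t.2.1 ≠ t.2.2 ∧ t.1 ≠ t.2.2) ∧ (g t.1, g t.2.1, g t.2.2) ∈ Bad).card := by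
      simp only [hT, card_filter]
      rw [sum_comm]
    have h3 : (∑ g : Fin N → V, (T g).card) * Fintype.card V ^ 3
        ≤ N ^ 3 * (Bad.card * Fintype.card V ^ N) := by
      rw [h2, sum_mul]
      have h := Finset.sum_le_sum (s := (univ : Finset (Fin N × Fin N × Fin N)))
        (f := fun t => (univ.filter fun g : Fin N → V =>
            (t.1 ≠ t.2.1 ∧ t.2.1 ≠ t.2.2 ∧ t.1 ≠ t.2.2) ∧ (g t.1, g t.2.1, g t.2.2) ∈ Bad).card
              * Fintype.card V ^ 3)
        (g := fun _ => Bad.card * Fintype.card V ^ N) (fun t _ => by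
          by_cases ht : t.1 ≠ t.2.1 ∧ t.2.1 ≠ t.2.2 ∧ t.1 ≠ t.2.2
          · have h' := count Bad N t.1 t.2.1 t.2.2 ht.1 ht.2.1 ht.2.2
            simpa only [ht, true_and, ne_eq, not_false_eq_true, and_self] using h'
          · have : (univ.filter fun g : Fin N → V =>
              (t.1 ≠ t.2.1 ∧ t.2.1 ≠ t.2.2 ∧ t.1 ≠ t.2.2) ∧ (g t.1, g t.2.1, g t.2.2) ∈ Bad) = ∅ := by
              rw [filter_eq_empty_iff]
              intro g _ hg
              exact ht hg.1
            rw [this]
            simp)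
      refine h.trans (le_of_eq ?_)
      rw [sum_const, card_univ, Fintype.card_prod, Fintype.card_prod, Fintype.card_fin, smul_eq_mul]
      ring
    have hp1 : 0 < Fintype.card V ^ N := pow_pos hV N
    have hp3 : 0 < Fintype.card V ^ 3 := pow_pos hV 3
    have h4 : (N + 1) * Fintype.card V ^ N * Fintype.card V ^ 3
        ≤ N * Fintype.card V ^ 3 * Fintype.card V ^ N := by
      calc (N + 1) * Fintype.card V ^ N * Fintype.card V ^ 3
          ≤ (2 * ∑ g : Fin N → V, (T g).card) * Fintype.card V ^ 3 := Nat.mul_le_mul_right _ h1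
        _ = 2 * ((∑ g : Fin N → V, (T g).card) * Fintype.card V ^ 3) := by ring
        _ ≤ 2 * (N ^ 3 * (Bad.card * Fintype.card V ^ N)) := Nat.mul_le_mul_left _ h3
        _ = N * (2 * N ^ 2 * Bad.card) * Fintype.card V ^ N := by ring
        _ ≤ N * Fintype.card V ^ 3 * Fintype.card V ^ N :=
            Nat.mul_le_mul_right _ (Nat.mul_le_mul_left _ hN)
    have h5 : (N + 1) * (Fintype.card V ^ N * Fintype.card V ^ 3)
        ≤ N * (Fintype.card V ^ N * Fintype.card V ^ 3) := by
      calc _ = (N + 1) * Fintype.card V ^ N * Fintype.card V ^ 3 := by ring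
        _ ≤ _ := h4
        _ = _ := by ring
    have h6 := Nat.le_of_mul_le_mul_right h5 (Nat.mul_pos hp1 hp3)
    omega
  obtain ⟨g, hg⟩ := hex
  refine ⟨g, univ \ (T g).image Prod.fst, ?_, ?_⟩
  · have h1 := card_sdiff_add_card_eq_card (subset_univ ((T g).image Prod.fst))
    rw [card_univ, Fintype.card_fin] at h1
    have h2 : ((T g).image Prod.fst).card ≤ (T g).card := card_image_le
    omega
  · intro a ha b hb c hc hab hbc hac hbad
    rw [mem_sdiff] at ha
    apply ha.2
    rw [mem_image]
    refine ⟨(a, b, c), ?_, rfl⟩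
    rw [hT]
    simp only [mem_filter, mem_univ, true_and]
    exact ⟨⟨hab, hbc, hac⟩, hbad⟩

end Pool.Agent.H3.MQ
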