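import Pool.Agent.H69.MQ.Stm

set_option autoImplicit false

namespace Pool.Agent.H3.MQ
open Finset Pool.Agent.H69.MQ

theorem t_EXP (hBAD : S_BAD) (hAVG : S_AVG) : S_EXP := by
  intro n k hn hk h
  classical
  set Bad : Finset ((Fin n → Bool) × (Fin n → Bool) × (Fin n → Bool)) :=
    univ.filter fun t => (univ.filter fun i => t.1 i = t.2.2 i ∧ t.2.1 i ≠ t.1 i).card ≤ 1 with hBadDef
  have hB : Bad.card ≤ n * (8 * 6 ^ (n - 1)) := hBAD n hn
  have hcard : Fintype.card (Fin n → Bool) ^ 3 = 8 ^ n := by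
    rw [Fintype.card_fun, Fintype.card_bool, Fintype.card_fin, ← pow_mul, mul_comm, pow_mul]
    norm_num
  have hnum : 2 * (2 * k) ^ 2 * Bad.card ≤ Fintype.card (Fin n → Bool) ^ 3 := by
    rw [hcard]
    obtain ⟨m, rfl⟩ : ∃ m, n = m + 1 := ⟨n - 1, by omega⟩
    simp only [Nat.add_sub_cancel] at hB
    have h2 : 2 ^ (m + 1) * (32 * (m + 1) * k ^ 2 * 3 ^ (m + 1)) ≤ 2 ^ (m + 1) * (3 * 4 ^ (m + 1)) :=
      Nat.mul_le_mul_left _ h
    have e6 : (6 : ℕ) ^ (m + 1) = 2 ^ (m + 1) * 3 ^ (m + 1) := by rw [← mul_pow]; norm_num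
    have e8 : (8 : ℕ) ^ (m + 1) = 2 ^ (m + 1) * 4 ^ (m + 1) := by rw [← mul_pow]; norm_num
    have h3 : 3 * (64 * (m + 1) * k ^ 2 * 6 ^ m) ≤ 3 * 8 ^ (m + 1) := by
      calc 3 * (64 * (m + 1) * k ^ 2 * 6 ^ m) = 32 * (m + 1) * k ^ 2 * 6 ^ (m + 1) := by
            rw [pow_succ]; ring
        _ = 2 ^ (m + 1) * (32 * (m + 1) * k ^ 2 * 3 ^ (m + 1)) := by rw [e6]; ring
        _ ≤ 2 ^ (m + 1) * (3 * 4 ^ (m + 1)) := h2
        _ = 3 * 8 ^ (m + 1) := by rw [e8]; ring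
    calc 2 * (2 * k) ^ 2 * Bad.card ≤ 2 * (2 * k) ^ 2 * ((m + 1) * (8 * 6 ^ m)) :=
          Nat.mul_le_mul_left _ hB
      _ = 64 * (m + 1) * k ^ 2 * 6 ^ m := by ring
      _ ≤ 8 ^ (m + 1) := by omega
  obtain ⟨g, I, hI, hgI⟩ := hAVG (Fin n → Bool) Bad (2 * k) hnum
  have hIk : k ≤ I.card := by omega
  have key : ∀ a ∈ I, ∀ b ∈ I, ∀ c ∈ I, a ≠ b → b ≠ c → a ≠ c →
      2 ≤ (univ.filter fun i => g a i = g c i ∧ g b i ≠ g a i).card := by
    intro a ha b hb c hc hab hbc hac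
    have h1 := hgI a ha b hb c hc hab hbc hac
    rw [hBadDef, mem_filter] at h1
    simp only [mem_univ, true_and, not_le] at h1
    omega
  have third : ∀ a b : Fin (2 * k), ∃ c ∈ I, c ≠ a ∧ c ≠ b := by
    intro a b
    by_contra hno
    push Not at hno
    have hsub : I ⊆ {a, b} := by
      intro c hc
      rw [mem_insert, mem_singleton]
      by_cases hca : c = a
      · exact Or.inl hca
      · exact Or.inr (hno c hc hca)
    have := (card_le_card hsub).trans card_le_two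
    omega
  have key2 : ∀ a ∈ I, ∀ b ∈ I, a ≠ b → 2 ≤ (univ.filter fun i => g a i ≠ g b i).card := by
    intro a ha b hb hab
    obtain ⟨c, hc, hca, hcb⟩ := third a b
    have h1 := key a ha b hb c hc hab (Ne.symm hcb) (Ne.symm hca)
    refine h1.trans (card_le_card ?_)
    intro i hi
    rw [mem_filter] at hi ⊢
    exact ⟨mem_univ _, fun h' => hi.2.2 h'.symm⟩
  have hinj : Set.InjOn g (I : Set (Fin (2 * k))) := by
    intro a ha b hb hgab
    by_contra hab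
    have h1 := key2 a ha b hb hab
    rw [hgab] at h1
    simp at h1
  refine ⟨I.image g, ?_, ?_, ?_⟩
  · rw [card_image_of_injOn hinj]
    exact hIk
  · intro x hx y hy hxy
    rw [mem_image] at hx hy
    obtain ⟨a, ha, rfl⟩ := hx
    obtain ⟨b, hb, rfl⟩ := hy
    exact key2 a ha b hb (fun h' => hxy (by rw [h']))
  · intro x hx y hy z hz hxy hyz hxz
    rw [mem_image] at hx hy hz
    obtain ⟨a, ha, rfl⟩ := hx
    obtain ⟨b, hb, rfl⟩ := hy
    obtain ⟨c, hc, rfl⟩ := hz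
    exact key a ha b hb c hc (fun h' => hxy (by rw [h'])) (fun h' => hyz (by rw [h']))
      (fun h' => hxz (by rw [h']))

end Pool.Agent.H3.MQ
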